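import Pool.Agent.Q186.DT.Stm

/-!
# Project DT, job TCP: compactness
-/

set_option autoImplicit false

namespace Pool.Agent.Q98.DT

open Set Filter Topology MeasureTheory
open Pool.Agent.Q186.DT

variable {K : ℕ}

/-- bound of the parent -/
def pC (C : Nd K → ℝ) : Nd K → ℝ
  | [] => 0
  | _ :: u => |C u|

lemma pC_nonneg (C : Nd K → ℝ) (w : Nd K) : 0 ≤ pC C w := by
  cases w with
  | nil => exact le_rfl
  | cons i u => exact abs_nonneg _

/-- the Lipschitz constant -/
noncomputable def Dw (L g k : ℝ) (C B : Nd K → ℝ) (w : Nd K) : ℝ :=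
  L ^ w.length * (pC C w ^ 2 + |C w| * (g * ∑ i : Fin K, |C (i :: w)| + k)) + |B w|

lemma Dw_nonneg {L g k : ℝ} (hL : 1 ≤ L) (hg : 1 ≤ g) (hk : 0 < k) (C B : Nd K → ℝ) (w : Nd K) :
    0 ≤ Dw L g k C B w := by
  unfold Dw
  have h1 : 0 ≤ ∑ i : Fin K, |C (i :: w)| := Finset.sum_nonneg fun i _ => abs_nonneg _
  have := pC_nonneg C w
  positivity

lemma vf_bd {L g k : ℝ} (hL : 1 ≤ L) (hg : 1 ≤ g) (hk : 0 < k) {F V : Nd K → ℝ → ℝ}
    {C B : Nd K → ℝ} {w : Nd K} {t : ℝ} (h1 : |pr V w t| ≤ pC C w) (h2 : |V w t| ≤ |C w|)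
    (h3 : ∀ i : Fin K, |V (i :: w) t| ≤ |C (i :: w)|) (h4 : |F w t| ≤ |B w|) :
    |vf L g k F V w t| ≤ Dw L g k C B w := by
  unfold vf Dw
  have hc : |ch V w t| ≤ ∑ i : Fin K, |C (i :: w)| := by
    unfold ch
    exact (Finset.abs_sum_le_sum_abs _ _).trans (Finset.sum_le_sum fun i _ => h3 i)
  have hLn : 0 ≤ L ^ w.length := by positivity
  refine (abs_add_le _ _).trans (add_le_add ?_ h4)
  rw [abs_mul, abs_of_nonneg hLn]
  refine mul_le_mul_of_nonneg_left ?_ hLn
  refine (abs_sub _ _).trans (add_le_add ?_ ?_)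
  · rw [abs_pow]
    exact pow_le_pow_left₀ (abs_nonneg _) h1 2
  · rw [abs_mul]
    refine mul_le_mul h2 ?_ (abs_nonneg _) (abs_nonneg _)
    refine (abs_add_le _ _).trans (add_le_add ?_ (abs_of_pos hk).le)
    rw [abs_mul, abs_of_nonneg (by linarith : (0:ℝ) ≤ g)]
    exact mul_le_mul_of_nonneg_left hc (by linarith)

lemma rat_near {T : ℝ} (hT : 0 < T) {t : ℝ} (ht : t ∈ Icc 0 T) {δ : ℝ} (hδ : 0 < δ) :
    ∃ r : ℚ, (r : ℝ) ∈ Icc 0 T ∧ |t - r| ≤ δ := by
  obtain ⟨r, hr1, hr2⟩ := exists_rat_btwn (show max 0 (t - δ) < min T (t + δ) by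
    rw [max_lt_iff, lt_min_iff, lt_min_iff]
    exact ⟨⟨hT, by linarith [ht.1]⟩, by linarith [ht.2], by linarith⟩)
  rw [max_lt_iff] at hr1
  rw [lt_min_iff] at hr2
  exact ⟨r, ⟨hr1.1.le, hr2.1.le⟩, by rw [abs_le]; constructor <;> linarith [hr1.2, hr2.2]⟩

/-- a sequence of uniformly Lipschitz functions converging at the rationals converges. -/
lemma cauchy_real {T : ℝ} (hT : 0 < T) (f : ℕ → ℝ → ℝ) (D : ℝ) (hD : 0 ≤ D) (j0 : ℕ)
    (hlip : ∀ j, j0 ≤ j → ∀ s ∈ Icc 0 T, ∀ t ∈ Icc 0 T, |f j t - f j s| ≤ D * |t - s|)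
    (hq : ∀ r : ℚ, (r : ℝ) ∈ Icc 0 T → ∃ v, Tendsto (fun j => f j (r : ℝ)) atTop (𝓝 v)) (t : ℝ)
    (ht : t ∈ Icc 0 T) : ∃ v, Tendsto (fun j => f j t) atTop (𝓝 v) := by
  apply cauchySeq_tendsto_of_complete
  rw [Metric.cauchySeq_iff']
  intro ε hε
  obtain ⟨r, hr0, hr⟩ := rat_near hT ht (show 0 < ε / (4 * (D + 1)) by positivity)
  obtain ⟨v, hv⟩ := hq r hr0
  have hv2 := hv
  rw [Metric.tendsto_atTop] at hv2
  obtain ⟨M2, hM2⟩ := hv2 (ε / 8) (by positivity)
  refine ⟨max M2 j0, fun n hn => ?_⟩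
  have h1 := hlip n (le_trans (le_max_right _ _) hn) r hr0 t ht
  have h2 := hlip (max M2 j0) (le_max_right _ _) r hr0 t ht
  have h3 := hM2 n (le_trans (le_max_left _ _) hn)
  have h4 := hM2 (max M2 j0) (le_max_left _ _)
  rw [Real.dist_eq] at h3 h4 ⊢
  have h5 : D * |t - r| ≤ ε / 4 := by
    calc D * |t - r| ≤ (D + 1) * (ε / (4 * (D + 1))) := by
          apply mul_le_mul (by linarith) hr (abs_nonneg _) (by linarith)
      _ = ε / 4 := by field_simp
  rw [abs_lt] at h3 h4 ⊢
  rw [abs_le] at h1 h2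
  constructor <;> linarith [h1.1, h1.2, h2.1, h2.2, h3.1, h3.2, h4.1, h4.2]

lemma cont_vf {L g k : ℝ} {F V : Nd K → ℝ → ℝ} {w : Nd K} {S : Set ℝ}
    (hF : ContinuousOn (F w) S) (h1 : ContinuousOn (pr V w) S) (h2 : ContinuousOn (V w) S)
    (h3 : ∀ i : Fin K, ContinuousOn (V (i :: w)) S) : ContinuousOn (vf L g k F V w) S := by
  have hc : ContinuousOn (ch V w) S := by
    unfold ch
    exact continuousOn_finsetSum _ fun i _ => h3 i
  unfold vf
  fun_prop

theorem t_TCP : P_TCP := by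
  intro K L g k T F a C U hL hg hk hT hF hU hC
  classical
  have hB : ∀ w, ∃ B, ∀ t ∈ Icc 0 T, |F w t| ≤ B := by
    intro w
    obtain ⟨B, hB⟩ := isCompact_Icc.exists_bound_of_continuousOn (hF w)
    exact ⟨B, fun t ht => by simpa [Real.norm_eq_abs] using hB t ht⟩
  choose B hB using hB
  have hFB : ∀ w, ∀ t ∈ Icc 0 T, |F w t| ≤ |B w| := fun w t ht => (hB w t ht).trans (le_abs_self _)
  -- subsequence
  let I := Nd K × {r : ℚ // (r : ℝ) ∈ Icc 0 T}
  let x : ℕ → I → ℝ := fun N p => if p.1.length ≤ N then U N p.1 (p.2.1 : ℝ) else 0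
  have hcpt : IsCompact (Set.pi Set.univ (fun p : I => Icc (-|C p.1|) |C p.1|)) :=
    isCompact_univ_pi (fun p => isCompact_Icc)
  have hmem : ∀ N, x N ∈ Set.pi Set.univ (fun p : I => Icc (-|C p.1|) |C p.1|) := by
    intro N p _
    show x N p ∈ _
    simp only [x]
    split_ifs with h
    · exact abs_le.1 ((hC N p.1 h _ p.2.2).trans (le_abs_self _))
    · exact ⟨by simp, abs_nonneg _⟩
  obtain ⟨y, _, φ, hφ, hy⟩ := hcpt.tendsto_subseq hmem
  rw [tendsto_pi_nhds] at hy
  have hφge : ∀ j, j ≤ φ j := hφ.id_le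
  have hCa : ∀ N (w : Nd K), w.length ≤ N → ∀ t ∈ Icc 0 T, |U N w t| ≤ |C w| :=
    fun N w hw t ht => (hC N w hw t ht).trans (le_abs_self _)
  have hprU : ∀ N (w : Nd K), w.length ≤ N → ∀ t ∈ Icc 0 T, |pr (U N) w t| ≤ pC C w := by
    intro N w hw t ht
    cases w with
    | nil => simp [pC]
    | cons i u =>
      rw [pr_cons]
      exact hCa N u (by simp at hw; omega) t ht
  have hvfU : ∀ N (w : Nd K), w.length + 1 ≤ N → ∀ t ∈ Icc 0 T,
      |vf L g k F (U N) w t| ≤ Dw L g k C B w := by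
    intro N w hw t ht
    exact vf_bd hL hg hk (hprU N w (by omega) t ht) (hCa N w (by omega) t ht)
      (fun i => hCa N (i :: w) (by simpa using hw) t ht) (hFB w t ht)
  -- Lipschitz bound
  have hlipN : ∀ N (w : Nd K), w.length + 1 ≤ N → ∀ s ∈ Icc 0 T, ∀ t ∈ Icc 0 T,
      |U N w t - U N w s| ≤ Dw L g k C B w * |t - s| := by
    intro N w hw s hs t ht
    have := (convex_Icc (0:ℝ) T).norm_image_sub_le_of_norm_hasDerivWithin_le
      (f := U N w) (fun x hx => (hU N).deriv w (by omega) x hx)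
      (fun x hx => by rw [Real.norm_eq_abs]; exact hvfU N w hw x hx) hs ht
    simpa [Real.norm_eq_abs] using this
  have hlim : ∀ w, ∀ t, t ∈ Icc 0 T → ∃ v, Tendsto (fun j => U (φ j) w t) atTop (𝓝 v) := by
    intro w t ht
    apply cauchy_real hT (fun j => U (φ j) w) (Dw L g k C B w) (Dw_nonneg hL hg hk C B w)
      (w.length + 1) (fun j hj => hlipN (φ j) w (hj.trans (hφge j))) _ t ht
    intro r hr
    refine ⟨y (w, ⟨r, hr⟩), ?_⟩
    apply (hy (w, ⟨r, hr⟩)).congr'
    filter_upwards [eventually_ge_atTop w.length] with j hj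
    have h2 : w.length ≤ φ j := le_trans hj (hφge j)
    simp [x, Function.comp, h2]
  choose! V hV using hlim
  have hVlip : ∀ w, ∀ s ∈ Icc 0 T, ∀ t ∈ Icc 0 T, |V w t - V w s| ≤ Dw L g k C B w * |t - s| := by
    intro w s hs t ht
    apply le_of_tendsto (((hV w t ht).sub (hV w s hs)).abs)
    filter_upwards [eventually_ge_atTop (w.length + 1)] with j hj
    exact hlipN (φ j) w (hj.trans (hφge j)) s hs t ht
  have hVcont : ∀ w, ContinuousOn (V w) (Icc 0 T) := by
    intro w
    have : LipschitzOnWith (Dw L g k C B w).toNNReal (V w) (Icc 0 T) := by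
      apply LipschitzOnWith.of_dist_le_mul
      intro s hs t ht
      rw [Real.coe_toNNReal _ (Dw_nonneg hL hg hk C B w), Real.dist_eq, Real.dist_eq]
      exact hVlip w t ht s hs
    exact this.continuousOn
  have hprcont : ∀ w, ContinuousOn (pr V w) (Icc 0 T) := by
    intro w
    cases w with
    | nil => exact continuousOn_const
    | cons i u => exact hVcont u
  have hGcont : ∀ w, ContinuousOn (vf L g k F V w) (Icc 0 T) := fun w =>
    cont_vf (hF w) (hprcont w) (hVcont w) fun i => hVcont _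
  have hUcont : ∀ N (w : Nd K), w.length ≤ N → ContinuousOn (U N w) (Icc 0 T) :=
    fun N w hw t ht => ((hU N).deriv w hw t ht).continuousWithinAt
  have hUvf : ∀ N (w : Nd K), w.length + 1 ≤ N → ContinuousOn (vf L g k F (U N) w) (Icc 0 T) := by
    intro N w hw
    refine cont_vf (hF w) ?_ (hUcont N w (by omega)) fun i => hUcont N (i :: w) (by simpa using hw)
    cases w with
    | nil => exact continuousOn_const
    | cons i u => exact hUcont N u (by simp at hw; omega)
  have hprlim : ∀ w, ∀ t ∈ Icc 0 T, Tendsto (fun j => pr (U (φ j)) w t) atTop (𝓝 (pr V w t)) := by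
    intro w t ht
    cases w with
    | nil => exact tendsto_const_nhds
    | cons i u => exact hV u t ht
  have hvflim : ∀ w, ∀ t ∈ Icc 0 T,
      Tendsto (fun j => vf L g k F (U (φ j)) w t) atTop (𝓝 (vf L g k F V w t)) := by
    intro w t ht
    unfold vf ch
    exact ((((hprlim w t ht).pow 2).sub ((hV w t ht).mul
      (((tendsto_finsetSum _ fun i _ => hV (i :: w) t ht).const_mul g).add_const k))).const_mul
        (L ^ w.length)).add_const _
  have hint : ∀ w, ∀ t ∈ Icc 0 T, V w t = a w + ∫ s in (0:ℝ)..t, vf L g k F V w s := by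
    intro w t ht
    have hj : ∀ j, w.length + 1 ≤ j → U (φ j) w t = a w + ∫ s in (0:ℝ)..t, vf L g k F (U (φ j)) w s := by
      intro j hj
      have h2 : w.length + 1 ≤ φ j := le_trans hj (hφge j)
      have hsub : Icc 0 t ⊆ Icc 0 T := Icc_subset_Icc le_rfl ht.2
      have := intervalIntegral.integral_eq_sub_of_hasDeriv_right_of_le ht.1
        ((hUcont (φ j) w (by omega)).mono hsub) (f' := fun s => vf L g k F (U (φ j)) w s)
        (fun x hx => by
          have hx' : x ∈ Ioo 0 T := ⟨hx.1, lt_of_lt_of_le hx.2 ht.2⟩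
          exact (((hU (φ j)).deriv w (by omega) x (Ioo_subset_Icc_self hx')).hasDerivAt
            (Icc_mem_nhds hx'.1 hx'.2)).hasDerivWithinAt) (by
          apply ContinuousOn.intervalIntegrable
          rw [uIcc_of_le ht.1]
          exact (hUvf (φ j) w h2).mono hsub)
      rw [this, (hU (φ j)).init w (by omega)]; ring
    have hl : Tendsto (fun j => a w + ∫ s in (0:ℝ)..t, vf L g k F (U (φ j)) w s)
        atTop (𝓝 (a w + ∫ s in (0:ℝ)..t, vf L g k F V w s)) := by
      apply tendsto_const_nhds.add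
      apply intervalIntegral.tendsto_integral_filter_of_dominated_convergence
        (fun _ => Dw L g k C B w)
      · filter_upwards [eventually_ge_atTop (w.length + 1)] with j hj
        have h2 : w.length + 1 ≤ φ j := le_trans hj (hφge j)
        rw [uIoc_of_le ht.1]
        exact ((hUvf (φ j) w h2).mono (fun z hz => ⟨hz.1.le, hz.2.trans ht.2⟩)).aestronglyMeasurable
          measurableSet_Ioc
      · filter_upwards [eventually_ge_atTop (w.length + 1)] with j hj
        refine Eventually.of_forall (fun s hs => ?_)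
        rw [uIoc_of_le ht.1] at hs
        rw [Real.norm_eq_abs]
        exact hvfU (φ j) w (le_trans hj (hφge j)) s ⟨hs.1.le, hs.2.trans ht.2⟩
      · exact intervalIntegrable_const
      · refine Eventually.of_forall (fun s hs => ?_)
        rw [uIoc_of_le ht.1] at hs
        exact hvflim w s ⟨hs.1.le, hs.2.trans ht.2⟩
    refine tendsto_nhds_unique (hV w t ht) (hl.congr' ?_)
    filter_upwards [eventually_ge_atTop (w.length + 1)] with j hj'
    exact (hj j hj').symm
  refine ⟨V, φ, ?_, ?_, hφ, hV⟩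
  · intro w t ht
    let G : ℝ → ℝ := fun s => vf L g k F V w s
    let q : ℝ → ℝ := fun s => max 0 (min s T)
    have hq : Continuous q := continuous_const.max (continuous_id.min continuous_const)
    have hqm : ∀ s, q s ∈ Icc 0 T := fun s => ⟨le_max_left _ _, max_le hT.le (min_le_right _ _)⟩
    have hqi : ∀ s ∈ Icc 0 T, q s = s := fun s hs => by
      simp only [q]
      rw [min_eq_left hs.2, max_eq_right hs.1]
    have hG' : Continuous (fun s : ℝ => G (q s)) :=
      ContinuousOn.comp_continuous (hGcont w) hq hqm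
    have hd : HasDerivAt (fun u => ∫ s in (0:ℝ)..u, G (q s)) (G (q t)) t :=
      intervalIntegral.integral_hasDerivAt_right (hG'.intervalIntegrable _ _)
        hG'.stronglyMeasurable.stronglyMeasurableAtFilter hG'.continuousAt
    have hd2 : HasDerivAt (fun u => a w + ∫ s in (0:ℝ)..u, G (q s)) (G t) t := by
      rw [hqi t ht] at hd
      exact hd.const_add _
    have key : ∀ u ∈ Icc 0 T, V w u = a w + ∫ s in (0:ℝ)..u, G (q s) := by
      intro u hu
      rw [hint w u hu]
      congr 1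
      apply intervalIntegral.integral_congr
      intro s hs
      rw [uIcc_of_le hu.1] at hs
      simp only [G]
      rw [hqi s ⟨hs.1, hs.2.trans hu.2⟩]
    exact hd2.hasDerivWithinAt.congr (fun u hu => key u hu) (key t ht)
  · intro w
    refine tendsto_nhds_unique (hV w 0 ⟨le_rfl, hT.le⟩) (tendsto_const_nhds.congr' ?_)
    filter_upwards [eventually_ge_atTop w.length] with j hj
    exact ((hU _).init w (le_trans hj (hφge j))).symm

end Pool.Agent.Q98.DT
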