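import Pool.Agent.Q186.DT.Stm

/-!
# Project DT, job TTR: solutions of the truncated systems
-/

set_option autoImplicit false

namespace Pool.Agent.Q98.DT

open Set Filter Topology MeasureTheory
open Pool.Agent.Q186.DT
open scoped NNReal

variable {K : ℕ}

/-! ### sums over the nodes -/

lemma sm_ge {N : ℕ} {f : Nd K → ℝ} (hf : ∀ w, 0 ≤ f w) {w : Nd K} (hw : w.length ≤ N) :
    f w ≤ sm N f := by
  unfold sm
  calc f w ≤ ∑ u ∈ lev K w.length, f u :=
        Finset.single_le_sum (fun u _ => hf u) ((mem_lev _ _).2 rfl)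
    _ ≤ _ := Finset.single_le_sum (f := fun n => ∑ u ∈ lev K n, f u)
        (fun n _ => Finset.sum_nonneg fun u _ => hf u) (Finset.mem_range.2 (by omega))

lemma sm_nonneg {N : ℕ} {f : Nd K → ℝ} (hf : ∀ w, 0 ≤ f w) : 0 ≤ sm N f :=
  Finset.sum_nonneg fun _ _ => Finset.sum_nonneg fun w _ => hf w

lemma sm_mono {N : ℕ} {f g : Nd K → ℝ} (h : ∀ w, f w ≤ g w) : sm N f ≤ sm N g :=
  Finset.sum_le_sum fun _ _ => Finset.sum_le_sum fun w _ => h w

lemma sm_congr {N : ℕ} {f g : Nd K → ℝ} (h : ∀ w : Nd K, w.length ≤ N → f w = g w) :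
    sm N f = sm N g := by
  refine Finset.sum_congr rfl fun n hn => Finset.sum_congr rfl fun w hw => h w ?_
  rw [(mem_lev _ _).1 hw]
  have := Finset.mem_range.1 hn
  omega

lemma sm_add {N : ℕ} (f g : Nd K → ℝ) : sm N (fun w => f w + g w) = sm N f + sm N g := by
  unfold sm
  simp only [Finset.sum_add_distrib]

lemma sm_mul {N : ℕ} (c : ℝ) (f : Nd K → ℝ) : sm N (fun w => c * f w) = c * sm N f := by
  unfold sm
  simp only [Finset.mul_sum]

lemma cont_sm {N : ℕ} {f : Nd K → ℝ → ℝ} {S : Set ℝ}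
    (h : ∀ w : Nd K, w.length ≤ N → ContinuousOn (f w) S) :
    ContinuousOn (fun t => sm N fun w => f w t) S := by
  unfold sm
  refine continuousOn_finsetSum _ fun n hn => continuousOn_finsetSum _ fun w hw => h w ?_
  rw [(mem_lev _ _).1 hw]
  have := Finset.mem_range.1 hn
  omega

/-! ### Gronwall -/

lemma gron {φ : ℝ → ℝ} {b A : ℝ} (hb : 0 ≤ b) (hφ : ContinuousOn φ (Icc 0 b))
    (h : ∀ t ∈ Icc 0 b, φ t ≤ A + ∫ s in (0:ℝ)..t, φ s) : ∀ t ∈ Icc 0 b, φ t ≤ A * Real.exp t := by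
  let q : ℝ → ℝ := fun s => max 0 (min s b)
  have hq : Continuous q := continuous_const.max (continuous_id.min continuous_const)
  have hqm : ∀ s, q s ∈ Icc 0 b := fun s => ⟨le_max_left _ _, max_le hb (min_le_right _ _)⟩
  have hqi : ∀ s ∈ Icc 0 b, q s = s := fun s hs => by
    simp only [q]
    rw [min_eq_left hs.2, max_eq_right hs.1]
  have hc : Continuous (fun s : ℝ => φ (q s)) := ContinuousOn.comp_continuous hφ hq hqm
  have hd : ∀ t, HasDerivAt (fun u => A + ∫ s in (0:ℝ)..u, φ (q s)) (φ (q t)) t := fun t =>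
    (intervalIntegral.integral_hasDerivAt_right (hc.intervalIntegrable _ _)
      hc.stronglyMeasurable.stronglyMeasurableAtFilter hc.continuousAt).const_add _
  have he : ∀ t, HasDerivAt (fun u => (A + ∫ s in (0:ℝ)..u, φ (q s)) * Real.exp (-u))
      (φ (q t) * Real.exp (-t) + (A + ∫ s in (0:ℝ)..t, φ (q s)) * (Real.exp (-t) * (-1))) t :=
    fun t => (hd t).mul ((hasDerivAt_neg t).exp)
  have hI : ∀ t ∈ Icc 0 b, ∫ s in (0:ℝ)..t, φ (q s) = ∫ s in (0:ℝ)..t, φ s := by
    intro t ht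
    apply intervalIntegral.integral_congr
    intro s hs
    rw [uIcc_of_le ht.1] at hs
    simp only
    rw [hqi s ⟨hs.1, hs.2.trans ht.2⟩]
  have hanti : AntitoneOn (fun u => (A + ∫ s in (0:ℝ)..u, φ (q s)) * Real.exp (-u)) (Icc 0 b) := by
    apply antitoneOn_of_deriv_nonpos (convex_Icc 0 b)
    · exact fun t _ => (he t).continuousAt.continuousWithinAt
    · exact fun t _ => (he t).differentiableAt.differentiableWithinAt
    · rw [interior_Icc]
      intro t ht
      have ht' : t ∈ Icc 0 b := Ioo_subset_Icc_self ht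
      rw [(he t).deriv, hqi t ht', hI t ht']
      have h1 := h t ht'
      have h2 := Real.exp_pos (-t)
      nlinarith
  intro t ht
  have h1 := hanti (left_mem_Icc.2 hb) ht ht.1
  simp only [intervalIntegral.integral_same, add_zero, neg_zero, Real.exp_zero, mul_one] at h1
  rw [hI t ht] at h1
  have h2 := h t ht
  have h3 : (A + ∫ s in (0:ℝ)..t, φ s) = (A + ∫ s in (0:ℝ)..t, φ s) * Real.exp (-t) * Real.exp t := by
    rw [mul_assoc, ← Real.exp_add, neg_add_cancel, Real.exp_zero, mul_one]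
  rw [h3] at h2
  exact h2.trans (mul_le_mul_of_nonneg_right h1 (Real.exp_pos t).le)

/-! ### the energy bound -/

lemma tr_energy (hTEN : P_TEN) {L g k b EF : ℝ} {N : ℕ} {F U : Nd K → ℝ → ℝ} (hL : 1 ≤ L)
    (hg : 1 ≤ g) (hk : 0 < k) (hb : 0 < b) (hF : ∀ w, ContinuousOn (F w) (Icc 0 b))
    (hU : ∀ w : Nd K, w.length ≤ N → ∀ t ∈ Icc 0 b,
      HasDerivWithinAt (U w) (vf L g k F U w t) (Icc 0 b) t)
    (hlast : ∀ i w, w.length = N → ∀ t ∈ Icc 0 b, U (i :: w) t = max (U w t) 0)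
    (hEF : ∀ t ∈ Icc 0 b, PE L g F N t ≤ EF) :
    ∀ t ∈ Icc 0 b, PE L g U N t ≤ (PE L g U N 0 + b * EF) * Real.exp b := by
  have hgL : 0 ≤ g / L := by positivity
  have hUc : ∀ w : Nd K, w.length ≤ N → ContinuousOn (U w) (Icc 0 b) :=
    fun w hw t ht => (hU w hw t ht).continuousWithinAt
  have hUc' : ∀ w : Nd K, w.length ≤ N + 1 → ContinuousOn (U w) (Icc 0 b) := by
    intro w hw
    rcases Nat.lt_or_ge w.length (N + 1) with h | h
    · exact hUc w (by omega)
    · cases w with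
      | nil => exact hUc [] (by simp)
      | cons i u =>
        have hu : u.length = N := by simp at hw h; omega
        exact (ContinuousOn.sup (hUc u (by omega)) continuousOn_const).congr fun t ht => hlast i u hu t ht
  have hPEc : ContinuousOn (PE L g U N) (Icc 0 b) := by
    unfold PE
    exact cont_sm fun w hw => continuousOn_const.mul ((hUc w hw).pow 2)
  have hPFc : ContinuousOn (PF L g F U N) (Icc 0 b) := by
    unfold PF
    exact cont_sm fun w hw => continuousOn_const.mul ((hUc w hw).mul (hF w))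
  have hPF : ∀ t ∈ Icc 0 b, 2 * PF L g F U N t ≤ PE L g U N t + EF := by
    intro t ht
    have h1 : 2 * PF L g F U N t ≤ PE L g U N t + PE L g F N t := by
      unfold PF PE
      rw [← sm_mul, ← sm_add]
      refine sm_mono fun w => ?_
      have h2 : 0 ≤ (g / L) ^ w.length := by positivity
      nlinarith [mul_nonneg h2 (sq_nonneg (U w t - F w t))]
    linarith [hEF t ht]
  have hEF0 : 0 ≤ EF := by
    have h1 := hEF 0 ⟨le_rfl, hb.le⟩
    have h2 : 0 ≤ PE L g F N 0 := sm_nonneg fun w => by positivity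
    linarith
  have hPE0 : 0 ≤ PE L g U N 0 := sm_nonneg fun w => by positivity
  have key : ∀ t ∈ Icc 0 b, PE L g U N t ≤ (PE L g U N 0 + b * EF) +
      ∫ s in (0:ℝ)..t, PE L g U N s := by
    intro t ht
    have h1 := hTEN K L g k b F U N (by linarith) (by linarith) hF hUc' hU 0 t le_rfl ht.1 ht.2
    have hsub : Icc 0 t ⊆ Icc 0 b := Icc_subset_Icc le_rfl ht.2
    have h2 : 0 ≤ ∫ r in (0:ℝ)..t, PD g U N r := by
      apply intervalIntegral.integral_nonneg ht.1
      intro r _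
      exact sm_nonneg fun w => by positivity
    have h3 : 0 ≤ ∫ r in (0:ℝ)..t, fl g U N r := by
      apply intervalIntegral.integral_nonneg ht.1
      intro r hr
      unfold fl ch
      refine mul_nonneg (by positivity) (Finset.sum_nonneg fun w hw => ?_)
      refine mul_nonneg (sq_nonneg _) (Finset.sum_nonneg fun i _ => ?_)
      rw [hlast i w ((mem_lev _ _).1 hw) r (hsub hr)]
      exact le_max_right _ _
    have h4 : 2 * ∫ r in (0:ℝ)..t, PF L g F U N r ≤ (∫ s in (0:ℝ)..t, PE L g U N s) + t * EF := by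
      have h5 : ∫ r in (0:ℝ)..t, 2 * PF L g F U N r ≤ ∫ r in (0:ℝ)..t, (PE L g U N r + EF) := by
        apply intervalIntegral.integral_mono_on ht.1
        · apply ContinuousOn.intervalIntegrable
          rw [uIcc_of_le ht.1]
          exact continuousOn_const.mul (hPFc.mono hsub)
        · apply ContinuousOn.intervalIntegrable
          rw [uIcc_of_le ht.1]
          exact (hPEc.mono hsub).add continuousOn_const
        · exact fun r hr => hPF r (hsub hr)
      rw [intervalIntegral.integral_const_mul, intervalIntegral.integral_add,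
        intervalIntegral.integral_const, smul_eq_mul, sub_zero] at h5
      · exact h5
      · apply ContinuousOn.intervalIntegrable
        rw [uIcc_of_le ht.1]
        exact hPEc.mono hsub
      · exact intervalIntegrable_const
    have h6 : t * EF ≤ b * EF := mul_le_mul_of_nonneg_right ht.2 hEF0
    have h7 : 0 ≤ 2 * k * ∫ r in (0:ℝ)..t, PD g U N r := by positivity
    linarith
  intro t ht
  have h1 := gron hb.le hPEc key t ht
  refine h1.trans (mul_le_mul_of_nonneg_left ?_ (by positivity))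
  exact Real.exp_le_exp.2 ht.2

/-! ### Picard-Lindelof -/

lemma pl {E : Type} [NormedAddCommGroup E] [NormedSpace ℝ E] [CompleteSpace E] (f : ℝ → E → E)
    {T : ℝ} (hT : 0 ≤ T) (Kc B : ℝ≥0) (hlip : ∀ t ∈ Icc 0 T, LipschitzWith Kc (f t))
    (hcont : ∀ x, ContinuousOn (fun t => f t x) (Icc 0 T)) (hb : ∀ t ∈ Icc 0 T, ∀ x, ‖f t x‖ ≤ B)
    (x₀ : E) : ∃ α : ℝ → E, α 0 = x₀ ∧ ∀ t ∈ Icc 0 T, HasDerivWithinAt α (f t (α t)) (Icc 0 T) t := by
  have h0 : (0 : ℝ) ∈ Icc (0 : ℝ) T := ⟨le_rfl, hT⟩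
  have hpl : IsPicardLindelof f (⟨0, h0⟩ : Icc (0 : ℝ) T) x₀ (B * T.toNNReal) 0 B Kc := by
    refine ⟨fun t ht => (hlip t ht).lipschitzOnWith, fun x _ => hcont x, fun t ht x _ => hb t ht x, ?_⟩
    simp only [sub_zero, sub_self, max_eq_left hT]
    simp only [NNReal.coe_zero, sub_zero]
    rw [NNReal.coe_mul, Real.coe_toNNReal _ hT]
  obtain ⟨α, h1, h2⟩ := hpl.exists_eq_forall_mem_Icc_hasDerivWithinAt₀
  exact ⟨α, h1, h2⟩

/-! ### the cut off -/

/-- the cut off -/
noncomputable def ct (R x : ℝ) : ℝ := max (-R) (min x R)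

lemma ct_abs {R : ℝ} (hR : 0 ≤ R) (x : ℝ) : |ct R x| ≤ R := by
  unfold ct
  rw [abs_le]
  exact ⟨le_max_left _ _, max_le (by linarith) (min_le_right _ _)⟩

lemma ct_id {R x : ℝ} (h : |x| ≤ R) : ct R x = x := by
  unfold ct
  rw [abs_le] at h
  rw [min_eq_left h.2, max_eq_right h.1]

lemma ct_lip (R x y : ℝ) : |ct R x - ct R y| ≤ |x - y| := by
  unfold ct
  have h1 := abs_max_sub_max_le_max (-R) (min x R) (-R) (min y R)
  have h2 := abs_min_sub_min_le_max x R y R
  simp only [sub_self, abs_zero] at h1 h2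
  have h3 : max 0 |min x R - min y R| = |min x R - min y R| := max_eq_right (abs_nonneg _)
  have h4 : max |x - y| 0 = |x - y| := max_eq_left (abs_nonneg _)
  rw [h3] at h1
  rw [h4] at h2
  exact h1.trans h2

/-- the nodes of generation at most `N` -/
def nn (K N : ℕ) : Finset (Nd K) := (Finset.range (N + 1)).biUnion (lev K)

lemma mem_nn {N : ℕ} {w : Nd K} : w ∈ nn K N ↔ w.length ≤ N := by
  simp only [nn, Finset.mem_biUnion, Finset.mem_range, mem_lev]
  constructor
  · rintro ⟨n, h1, h2⟩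
    omega
  · intro h
    exact ⟨w.length, by omega, rfl⟩

/-- extension of a vector to all the nodes -/
noncomputable def xt {N : ℕ} (v : nn K N → ℝ) (w : Nd K) : ℝ :=
  if h : w ∈ nn K N then v ⟨w, h⟩ else if h : w.tail ∈ nn K N then max (v ⟨w.tail, h⟩) 0 else 0

lemma xt_lip {N : ℕ} (v v' : nn K N → ℝ) (w : Nd K) : |xt v w - xt v' w| ≤ dist v v' := by
  unfold xt
  split_ifs with h h'
  · rw [← Real.dist_eq]
    exact dist_le_pi_dist v v' _
  · refine (abs_max_sub_max_le_max _ _ _ _).trans ?_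
    rw [sub_self, abs_zero, max_eq_left (abs_nonneg _), ← Real.dist_eq]
    exact dist_le_pi_dist v v' _
  · simp

lemma xt_of {N : ℕ} (v : nn K N → ℝ) {w : Nd K} (h : w ∈ nn K N) : xt v w = v ⟨w, h⟩ := dif_pos h

lemma xt_last {N : ℕ} (v : nn K N → ℝ) {w : Nd K} (i : Fin K) (h : w.length = N) :
    xt v (i :: w) = max (xt v w) 0 := by
  have h1 : w ∈ nn K N := mem_nn.2 h.le
  have h2 : (i :: w) ∉ nn K N := fun h3 => by
    have := mem_nn.1 h3
    simp at this
    omega
  rw [xt_of v h1]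
  unfold xt
  rw [dif_neg h2, dif_pos (show (i :: w).tail ∈ nn K N from h1)]
  rfl

lemma xt_abs {N : ℕ} (v : nn K N → ℝ) {R : ℝ} (hR : 0 ≤ R)
    (h : ∀ w : Nd K, w.length ≤ N → |xt v w| ≤ R) (w : Nd K) (hw : w.length ≤ N + 1) :
    |xt v w| ≤ R := by
  rcases Nat.lt_or_ge w.length (N + 1) with h1 | h1
  · exact h w (by omega)
  · cases w with
    | nil => exact h [] (by simp)
    | cons i u =>
      have hu : u.length = N := by simp at hw h1; omega
      rw [xt_last v i hu, abs_of_nonneg (le_max_right _ _)]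
      exact max_le ((le_abs_self _).trans (h u hu.le)) hR

/-! ### the field -/

/-- the field -/
noncomputable def fd {N : ℕ} (L g k R : ℝ) (F : Nd K → ℝ → ℝ) (t : ℝ) (v : nn K N → ℝ) :
    nn K N → ℝ := fun w => vf L g k F (fun u _ => ct R (xt v u)) w.1 t

lemma pr_lip {V V' : Nd K → ℝ → ℝ} {D t : ℝ} (hD : 0 ≤ D) (h : ∀ w, |V w t - V' w t| ≤ D)
    (w : Nd K) : |pr V w t - pr V' w t| ≤ D := by
  cases w with
  | nil => simpa using hD
  | cons i u => exact h u

lemma pr_abs {V : Nd K → ℝ → ℝ} {R t : ℝ} (hR : 0 ≤ R) (h : ∀ w, |V w t| ≤ R)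
    (w : Nd K) : |pr V w t| ≤ R := by
  cases w with
  | nil => simpa using hR
  | cons i u => exact h u

lemma ch_abs {V : Nd K → ℝ → ℝ} {R t : ℝ} (h : ∀ w, |V w t| ≤ R) (w : Nd K) :
    |ch V w t| ≤ K * R := by
  unfold ch
  refine (Finset.abs_sum_le_sum_abs _ _).trans ?_
  refine (Finset.sum_le_sum fun i _ => h (i :: w)).trans ?_
  simp

lemma ch_lip {V V' : Nd K → ℝ → ℝ} {D t : ℝ} (h : ∀ w, |V w t - V' w t| ≤ D)
    (w : Nd K) : |ch V w t - ch V' w t| ≤ K * D := by
  unfold ch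
  rw [← Finset.sum_sub_distrib]
  refine (Finset.abs_sum_le_sum_abs _ _).trans ?_
  refine (Finset.sum_le_sum fun i _ => h (i :: w)).trans ?_
  simp

lemma vf_lip {L g k R D t : ℝ} (hL : 1 ≤ L) (hg : 1 ≤ g) (hk : 0 < k) (hR : 0 ≤ R) (hD : 0 ≤ D)
    (F : Nd K → ℝ → ℝ) {V V' : Nd K → ℝ → ℝ} (h1 : ∀ w, |V w t| ≤ R) (h2 : ∀ w, |V' w t| ≤ R)
    (h : ∀ w, |V w t - V' w t| ≤ D) (w : Nd K) :
    |vf L g k F V w t - vf L g k F V' w t| ≤
      L ^ w.length * ((2 * R + (g * (K * R) + k) + R * (g * K)) * D) := by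
  unfold vf
  have e : L ^ w.length * (pr V w t ^ 2 - V w t * (g * ch V w t + k)) + F w t -
      (L ^ w.length * (pr V' w t ^ 2 - V' w t * (g * ch V' w t + k)) + F w t) =
      L ^ w.length * ((pr V w t + pr V' w t) * (pr V w t - pr V' w t) -
        ((g * ch V w t + k) * (V w t - V' w t) + V' w t * (g * (ch V w t - ch V' w t)))) := by ring
  rw [e, abs_mul, abs_of_nonneg (by positivity : (0:ℝ) ≤ L ^ w.length)]
  refine mul_le_mul_of_nonneg_left ?_ (by positivity)
  have p1 := pr_abs hR h1 w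
  have p2 := pr_abs hR h2 w
  have p3 := pr_lip hD h w
  have c1 := ch_abs h1 w
  have c3 := ch_lip h w
  have a1 : |(pr V w t + pr V' w t) * (pr V w t - pr V' w t)| ≤ 2 * R * D := by
    rw [abs_mul]
    refine mul_le_mul ?_ p3 (abs_nonneg _) (by positivity)
    exact (abs_add_le _ _).trans (by linarith)
  have a2 : |(g * ch V w t + k) * (V w t - V' w t)| ≤ (g * (K * R) + k) * D := by
    rw [abs_mul]
    refine mul_le_mul ?_ (h w) (abs_nonneg _) (by positivity)
    refine (abs_add_le _ _).trans ?_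
    rw [abs_mul, abs_of_pos hk, abs_of_nonneg (by linarith : (0:ℝ) ≤ g)]
    have := mul_le_mul_of_nonneg_left c1 (by linarith : (0:ℝ) ≤ g)
    linarith
  have a3 : |V' w t * (g * (ch V w t - ch V' w t))| ≤ R * (g * (K * D)) := by
    rw [abs_mul, abs_mul, abs_of_nonneg (by linarith : (0:ℝ) ≤ g)]
    refine mul_le_mul (h2 w) ?_ (by positivity) hR
    exact mul_le_mul_of_nonneg_left c3 (by linarith)
  refine (abs_sub _ _).trans ?_
  have a4 := abs_add_le ((g * ch V w t + k) * (V w t - V' w t))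
    (V' w t * (g * (ch V w t - ch V' w t)))
  have e2 : (2 * R + (g * (K * R) + k) + R * (g * K)) * D =
      2 * R * D + (g * (K * R) + k) * D + R * (g * (K * D)) := by ring
  rw [e2]
  linarith

lemma vf_abs {L g k R B t : ℝ} (hL : 1 ≤ L) (hg : 1 ≤ g) (hk : 0 < k) (hR : 0 ≤ R)
    {F V : Nd K → ℝ → ℝ} (h1 : ∀ w, |V w t| ≤ R) (w : Nd K) (hF : |F w t| ≤ B) :
    |vf L g k F V w t| ≤ L ^ w.length * (R ^ 2 + R * (g * (K * R) + k)) + B := by
  unfold vf
  refine (abs_add_le _ _).trans (add_le_add ?_ hF)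
  rw [abs_mul, abs_of_nonneg (by positivity : (0:ℝ) ≤ L ^ w.length)]
  refine mul_le_mul_of_nonneg_left ?_ (by positivity)
  refine (abs_sub _ _).trans (add_le_add ?_ ?_)
  · rw [abs_pow]
    exact pow_le_pow_left₀ (abs_nonneg _) (pr_abs hR h1 w) 2
  · rw [abs_mul]
    refine mul_le_mul (h1 w) ?_ (abs_nonneg _) hR
    refine (abs_add_le _ _).trans (add_le_add ?_ (abs_of_pos hk).le)
    rw [abs_mul, abs_of_nonneg (by linarith : (0:ℝ) ≤ g)]
    exact mul_le_mul_of_nonneg_left (ch_abs h1 w) (by linarith)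

lemma vf_congr {L g k t : ℝ} {F V V' : Nd K → ℝ → ℝ} {w : Nd K}
    (h : ∀ u : Nd K, u.length ≤ w.length + 1 → V u t = V' u t) :
    vf L g k F V w t = vf L g k F V' w t := by
  have h1 : pr V w t = pr V' w t := by
    cases w with
    | nil => rfl
    | cons i u => exact h u (by simp; omega)
  have h2 : ch V w t = ch V' w t := by
    unfold ch
    exact Finset.sum_congr rfl fun i _ => h (i :: w) (by simp)
  unfold vf
  rw [h1, h2, h w (by omega)]

lemma pl_tree {ι : Type} [Fintype ι] {L g k R T : ℝ} (hL : 1 ≤ L) (hg : 1 ≤ g) (hk : 0 < k)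
    (hR0 : 0 ≤ R) (hT : 0 < T) {F : Nd K → ℝ → ℝ} (hF : ∀ w, ContinuousOn (F w) (Icc 0 T)) (N : ℕ)
    (e : ι → Nd K) (he : ∀ i, (e i).length ≤ N) (X : (ι → ℝ) → Nd K → ℝ)
    (hX : ∀ v v' w, |X v w - X v' w| ≤ dist v v') (a : Nd K → ℝ) :
    ∃ α : ℝ → ι → ℝ, (α 0 = fun i => a (e i)) ∧ ∀ t ∈ Icc 0 T, ∀ i,
      HasDerivWithinAt (fun s => α s i) (vf L g k F (fun u _ => ct R (X (α t) u)) (e i) t)
        (Icc 0 T) t := by
  have hB : ∀ w, ∃ B, ∀ t ∈ Icc 0 T, |F w t| ≤ B := by
    intro w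
    obtain ⟨B, hB⟩ := isCompact_Icc.exists_bound_of_continuousOn (hF w)
    exact ⟨B, fun t ht => by simpa [Real.norm_eq_abs] using hB t ht⟩
  choose B hB using hB
  obtain ⟨B1, hB1⟩ : ∃ B1, B1 = ∑ i, |B (e i)| := ⟨_, rfl⟩
  have hB10 : 0 ≤ B1 := by
    rw [hB1]
    exact Finset.sum_nonneg fun i _ => abs_nonneg _
  have hFB : ∀ i, ∀ t ∈ Icc 0 T, |F (e i) t| ≤ B1 := fun i t ht => by
    rw [hB1]
    exact ((hB (e i) t ht).trans (le_abs_self _)).trans
      (Finset.single_le_sum (f := fun i => |B (e i)|) (fun i _ => abs_nonneg _) (Finset.mem_univ i))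
  have hLw : ∀ i, L ^ (e i).length ≤ L ^ N := fun i => pow_le_pow_right₀ hL (he i)
  have hc0 : 0 ≤ 2 * R + (g * (K * R) + k) + R * (g * K) := by positivity
  have hc1 : 0 ≤ L ^ N * (2 * R + (g * (K * R) + k) + R * (g * K)) := by positivity
  have hc2 : 0 ≤ L ^ N * (R ^ 2 + R * (g * (K * R) + k)) + B1 := by positivity
  have hlip : ∀ t ∈ Icc 0 T, LipschitzWith
      (L ^ N * (2 * R + (g * (K * R) + k) + R * (g * K))).toNNReal
      (fun (v : ι → ℝ) (i : ι) => vf L g k F (fun u _ => ct R (X v u)) (e i) t) := by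
    intro t _
    apply LipschitzWith.of_dist_le_mul
    intro v v'
    rw [Real.coe_toNNReal _ hc1, dist_pi_le_iff (by positivity)]
    intro i
    rw [Real.dist_eq]
    have h6 := vf_lip (D := dist v v') (V := fun u _ => ct R (X v u))
      (V' := fun u _ => ct R (X v' u)) (t := t) hL hg hk hR0 dist_nonneg F
      (fun u => ct_abs hR0 (X v u)) (fun u => ct_abs hR0 (X v' u))
      (fun u => (ct_lip R (X v u) (X v' u)).trans (hX v v' u)) (e i)
    refine h6.trans ?_
    have h4 : 0 ≤ (2 * R + (g * (K * R) + k) + R * (g * K)) * dist v v' :=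
      mul_nonneg hc0 dist_nonneg
    have h5 := mul_le_mul_of_nonneg_right (hLw i) h4
    refine h5.trans (le_of_eq ?_)
    ring
  have hcont : ∀ v : ι → ℝ, ContinuousOn
      (fun t => (fun i : ι => vf L g k F (fun u _ => ct R (X v u)) (e i) t)) (Icc 0 T) := by
    intro v
    rw [continuousOn_pi]
    intro i
    have h1 : ∀ t, vf L g k F (fun u _ => ct R (X v u)) (e i) t =
        (vf L g k F (fun u _ => ct R (X v u)) (e i) 0 - F (e i) 0) + F (e i) t := by
      intro t
      have h2 : pr (fun u (_ : ℝ) => ct R (X v u)) (e i) t =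
          pr (fun u (_ : ℝ) => ct R (X v u)) (e i) 0 := by
        cases e i with
        | nil => rfl
        | cons j u => rfl
      have h3 : ch (fun u (_ : ℝ) => ct R (X v u)) (e i) t =
          ch (fun u (_ : ℝ) => ct R (X v u)) (e i) 0 := rfl
      unfold vf
      rw [h2, h3]
      ring
    exact (continuousOn_const.add (hF (e i))).congr fun t _ => h1 t
  have hbd : ∀ t ∈ Icc 0 T, ∀ v : ι → ℝ,
      ‖(fun i : ι => vf L g k F (fun u _ => ct R (X v u)) (e i) t)‖ ≤
        ((L ^ N * (R ^ 2 + R * (g * (K * R) + k)) + B1).toNNReal : ℝ) := by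
    intro t ht v
    rw [Real.coe_toNNReal _ hc2, pi_norm_le_iff_of_nonneg hc2]
    intro i
    rw [Real.norm_eq_abs]
    have h6 := vf_abs (V := fun u _ => ct R (X v u)) (t := t) hL hg hk hR0
      (fun u => ct_abs hR0 (X v u)) (e i) (hFB i t ht)
    refine h6.trans ?_
    have h1 : 0 ≤ R ^ 2 + R * (g * (K * R) + k) := by positivity
    have := mul_le_mul_of_nonneg_right (hLw i) h1
    linarith
  obtain ⟨α, hα0, hα⟩ := pl (fun t (v : ι → ℝ) (i : ι) =>
    vf L g k F (fun u _ => ct R (X v u)) (e i) t) hT.le _ _ hlip hcont hbd (fun i => a (e i))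
  exact ⟨α, hα0, fun t ht i => hasDerivWithinAt_pi.1 (hα t ht) i⟩

theorem t_TTR : P_TEN → P_TTR := by
  intro hTEN K L g k T N F a hL hg hk hT hF
  have hLp : 0 < L := by linarith
  have hgp : 0 < g := by linarith
  -- bounds of the data
  set E0 : ℝ := sm N fun w => (g / L) ^ w.length * a w ^ 2 with hE0
  have hE00 : 0 ≤ E0 := sm_nonneg fun w => by positivity
  have hPFc : ContinuousOn (PE L g F N) (Icc 0 T) := by
    unfold PE
    exact cont_sm fun w _ => continuousOn_const.mul ((hF w).pow 2)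
  obtain ⟨EF, hEF⟩ : ∃ EF, ∀ t ∈ Icc 0 T, PE L g F N t ≤ EF := by
    obtain ⟨B, hB⟩ := isCompact_Icc.exists_bound_of_continuousOn hPFc
    exact ⟨B, fun t ht => (le_abs_self _).trans (by simpa [Real.norm_eq_abs] using hB t ht)⟩
  have hEF0 : 0 ≤ EF := by
    have h1 := hEF 0 ⟨le_rfl, hT.le⟩
    have h2 : 0 ≤ PE L g F N 0 := sm_nonneg fun w => by positivity
    linarith
  set E1 : ℝ := (E0 + T * EF) * Real.exp T + 1 with hE1
  have hE10 : 1 ≤ E1 := by
    have : 0 ≤ (E0 + T * EF) * Real.exp T := by positivity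
    linarith
  have hE01 : E0 < E1 := by
    have h1 : 1 ≤ Real.exp T := Real.one_le_exp hT.le
    have h2 : 0 ≤ T * EF := by positivity
    nlinarith
  set R : ℝ := L ^ N * (E1 + 1) with hR
  have hLN : 1 ≤ L ^ N := one_le_pow₀ hL
  have hR0 : 0 ≤ R := by positivity
  have hRE : ∀ n ≤ N, E1 < (g / L) ^ n * R ^ 2 := by
    intro n hn
    have h1 : 1 / L ^ N ≤ (g / L) ^ n := by
      rw [div_pow]
      apply div_le_div₀ (by positivity) (one_le_pow₀ hg) (by positivity)
      exact pow_le_pow_right₀ hL hn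
    have h2 : (E1 + 1) ^ 2 ≤ (g / L) ^ n * R ^ 2 := by
      calc (E1 + 1) ^ 2 ≤ L ^ N * (E1 + 1) ^ 2 := by nlinarith [sq_nonneg (E1 + 1)]
        _ = (1 / L ^ N) * R ^ 2 := by rw [hR]; field_simp
        _ ≤ (g / L) ^ n * R ^ 2 := mul_le_mul_of_nonneg_right h1 (sq_nonneg _)
    nlinarith
  obtain ⟨α, hα0, hα⟩ := pl_tree (L := L) (g := g) (k := k) (R := R) hL hg hk hR0 hT hF N
    (fun w : nn K N => w.1) (fun w => mem_nn.1 w.2) xt xt_lip a
  set U : Nd K → ℝ → ℝ := fun w t => xt (α t) w with hU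
  have hUd : ∀ w : Nd K, w.length ≤ N → ∀ t ∈ Icc 0 T,
      HasDerivWithinAt (U w) (vf L g k F (fun u s => ct R (U u s)) w t) (Icc 0 T) t := by
    intro w hw t ht
    have h1 := hα t ht ⟨w, mem_nn.2 hw⟩
    have h2 : U w = fun s => α s ⟨w, mem_nn.2 hw⟩ := by
      funext s
      exact xt_of (α s) (mem_nn.2 hw)
    have h3 : vf L g k F (fun u _ => ct R (xt (α t) u)) w t =
        vf L g k F (fun u s => ct R (U u s)) w t := vf_congr fun u _ => rfl
    rw [h2, ← h3]
    exact h1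
  have hUlast : ∀ i w, w.length = N → ∀ t, U (i :: w) t = max (U w t) 0 :=
    fun i w hw t => xt_last (α t) i hw
  have hUinit : ∀ w : Nd K, w.length ≤ N → U w 0 = a w := by
    intro w hw
    show xt (α 0) w = a w
    rw [xt_of (α 0) (mem_nn.2 hw), hα0]
  have hUc : ∀ w : Nd K, w.length ≤ N → ContinuousOn (U w) (Icc 0 T) :=
    fun w hw t ht => (hUd w hw t ht).continuousWithinAt
  have hPEc : ContinuousOn (PE L g U N) (Icc 0 T) := by
    unfold PE
    exact cont_sm fun w hw => continuousOn_const.mul ((hUc w hw).pow 2)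
  have hPE0 : PE L g U N 0 = E0 := by
    unfold PE
    rw [hE0]
    exact sm_congr fun w hw => by rw [hUinit w hw]
  have hUR : ∀ t, PE L g U N t ≤ E1 → ∀ w : Nd K, w.length ≤ N + 1 → |U w t| ≤ R := by
    intro t h w hw
    refine xt_abs (α t) hR0 (fun u hu => ?_) w hw
    have h1 : (g / L) ^ u.length * U u t ^ 2 ≤ PE L g U N t :=
      sm_ge (f := fun w => (g / L) ^ w.length * U w t ^ 2) (fun w => by positivity) hu
    have h2 : (g / L) ^ u.length * U u t ^ 2 < (g / L) ^ u.length * R ^ 2 := by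
      linarith [hRE _ hu]
    have h3 : U u t ^ 2 < R ^ 2 := lt_of_mul_lt_mul_left h2 (by positivity)
    exact (abs_lt_of_sq_lt_sq h3 hR0).le
  -- the true equations
  have htrue : ∀ b, b ≤ T → (∀ t ∈ Icc 0 b, PE L g U N t ≤ E1) → ∀ w : Nd K, w.length ≤ N →
      ∀ t ∈ Icc 0 b, HasDerivWithinAt (U w) (vf L g k F U w t) (Icc 0 b) t := by
    intro b hb h w hw t ht
    have h1 := (hUd w hw t ⟨ht.1, ht.2.trans hb⟩).mono (Icc_subset_Icc le_rfl hb)
    have h2 : vf L g k F (fun u s => ct R (U u s)) w t = vf L g k F U w t := by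
      refine vf_congr fun u hu => ?_
      exact ct_id (hUR t (h t ht) u (by omega))
    rwa [h2] at h1
  have hsmall : ∀ t ∈ Icc 0 T, PE L g U N t ≤ E1 := by
    by_contra hcon
    push Not at hcon
    obtain ⟨t2, ht2, ht2E⟩ := hcon
    have hcl : IsCompact {s ∈ Icc 0 T | E1 ≤ PE L g U N s} := by
      have : {s ∈ Icc 0 T | E1 ≤ PE L g U N s} = Icc 0 T ∩ PE L g U N ⁻¹' (Ici E1) := rfl
      rw [this]
      exact isCompact_Icc.of_isClosed_subset
        (hPEc.preimage_isClosed_of_isClosed isClosed_Icc isClosed_Ici) inter_subset_left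
    obtain ⟨t1, ht1, ht1m⟩ := hcl.exists_isLeast ⟨t2, ht2, ht2E.le⟩
    have hpos : 0 < t1 := by
      rcases lt_or_eq_of_le ht1.1.1 with h | h
      · exact h
      · exfalso
        have := ht1.2
        rw [← h, hPE0] at this
        linarith
    have hlt : ∀ t ∈ Icc 0 t1, t < t1 → PE L g U N t < E1 := by
      intro t ht htt
      by_contra hcc
      push Not at hcc
      have := ht1m ⟨⟨ht.1, ht.2.trans ht1.1.2⟩, hcc⟩
      linarith
    have hle : ∀ t ∈ Icc 0 t1, PE L g U N t ≤ E1 := by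
      intro t ht
      rcases lt_or_eq_of_le ht.2 with h | h
      · exact (hlt t ht h).le
      · subst h
        have h1 : ContinuousWithinAt (PE L g U N) (Icc 0 T) t := hPEc t ht1.1
        have h2 : Tendsto (PE L g U N) (𝓝[Ioo 0 t] t) (𝓝 (PE L g U N t)) :=
          h1.mono (fun x hx => ⟨hx.1.le, hx.2.le.trans ht1.1.2⟩)
        have : (𝓝[Ioo 0 t] t).NeBot := by
          rw [← mem_closure_iff_nhdsWithin_neBot, closure_Ioo hpos.ne]
          exact ⟨hpos.le, le_rfl⟩
        refine le_of_tendsto h2 ?_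
        filter_upwards [self_mem_nhdsWithin] with x hx
        exact (hlt x ⟨hx.1.le, hx.2.le⟩ hx.2).le
    have h1 := tr_energy hTEN hL hg hk hpos
      (fun w => (hF w).mono (Icc_subset_Icc le_rfl ht1.1.2)) (htrue t1 ht1.1.2 hle)
      (fun i w hw t _ => hUlast i w hw t)
      (fun t ht => hEF t ⟨ht.1, ht.2.trans ht1.1.2⟩) t1 ⟨hpos.le, le_rfl⟩
    rw [hPE0] at h1
    have h2 : (E0 + t1 * EF) * Real.exp t1 ≤ (E0 + T * EF) * Real.exp T := by
      refine mul_le_mul ?_ (Real.exp_le_exp.2 ht1.1.2) (Real.exp_pos _).le (by positivity)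
      have := mul_le_mul_of_nonneg_right ht1.1.2 hEF0
      linarith
    have h3 : E1 ≤ PE L g U N t1 := ht1.2
    linarith
  exact ⟨U, htrue T le_rfl hsmall, fun i w hw t _ => hUlast i w hw t, hUinit⟩

end Pool.Agent.Q98.DT
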